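import Pool.Agent.MP_836f85_an.Proof

namespace Pool.Agent.Results.MP_836f85_an.Counterexample

open scoped BigOperators
open Pool.Agent.MP_836f85_an

/-- The right inequality of Q1 fails, already for the constant density 1, degree 2 and the
uniform knots 0, 1, ..., 6: there are unisolvent points in `Ω = [ξ p, ξ n] = [2, 4]` (indices start
at 0) such that the unique
interpolatory weights `w` and the unique equioscillating spline `c` satisfy
`‖c‖ * I(1) < ‖w‖₁`. -/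
theorem result : ∃ (p n : ℕ) (ξ : ℕ → ℝ) (ρ : ℝ → ℝ) (x : Fin n → ℝ),
    p = 2 ∧ n = 4 ∧ (∀ i : ℕ, ξ i = (i : ℝ)) ∧ (∀ y, ρ y = 1) ∧
    (∀ y ∈ Set.Icc (ξ p) (ξ n), ∑ i : Fin n, bspline ξ p i y = 1) ∧
    StrictMono x ∧ (∀ i, x i ∈ Set.Icc (ξ p) (ξ n)) ∧
    (∀ i : Fin n, 0 < bspline ξ p i (x i)) ∧
    (∃! w : Fin n → ℝ, IsQuadWeights ξ p ρ x w) ∧
    (∃! a : Fin n → ℝ, IsEquioscillating ξ p x a) ∧
    ∀ w a : Fin n → ℝ, IsQuadWeights ξ p ρ x w → IsEquioscillating ξ p x a →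
      ∃ M : ℝ, IsLUB ((fun y => |spline ξ p a y|) '' Set.Icc (ξ p) (ξ n)) M ∧
        M * (∫ y in Set.Icc (ξ p) (ξ n), ρ y) < ∑ k : Fin n, |w k| := by
  have k2 : kn 2 = 2 := by simp [kn]
  have k4 : kn 4 = 4 := by simp [kn]
  refine ⟨2, 4, kn, fun _ => 1, pts, rfl, rfl, fun _ => rfl, fun _ => rfl, unity, ?_, ?_,
    unisolvent, ⟨wt, (quad_iff _).2 rfl, fun w hw => (quad_iff _).1 hw⟩,
    ⟨co, (equi_iff _).2 rfl, fun a ha => (equi_iff _).1 ha⟩, ?_⟩
  · refine Fin.strictMono_iff_lt_succ.2 ?_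
    intro i
    fin_cases i <;> simp [pts] <;> norm_num
  · intro i
    rw [k2, k4]
    fin_cases i <;> simp [pts] <;> norm_num
  · intro w a hw ha
    rw [(quad_iff _).1 hw, (equi_iff _).1 ha]
    refine ⟨625 / 336, co_lub, ?_⟩
    rw [k2, k4]
    simp [Fin.sum_univ_four, wt, abs_div]
    norm_num

end Pool.Agent.Results.MP_836f85_an.Counterexample
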